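import Pool.Agent.Y961.JR.Disc
import Pool.Agent.W147.PS.Scale

set_option autoImplicit false
set_option maxHeartbeats 4000000

/-! Many members of a family in a small box modulo one. -/

namespace Pool.Agent.N542.PR

open Finset Filter Topology
open Pool.Agent.H469R2.NK (e norm_e e_add)
open Pool.Agent.W147.PS (ev_pow)
open Pool.Agent.Y961.JR (discJ_low)

theorem boxes (R : ℕ) (hR : 1 ≤ R) (η : ℝ) (hη : 0 < η) (hη1 : η ≤ 1) :
    ∃ β : ℝ, 0 < β ∧ ∀ᶠ Z : ℝ in atTop, ∀ (ι : Type) (s : Finset ι) (x : ι → Fin R → ℝ)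
      (t : Fin R → ℝ) (P : ℕ),
      (∀ h : Fin R → ℤ, h ≠ 0 → (∀ j, |(h j : ℝ)| ≤ Z ^ η) →
        ‖∑ i ∈ s, e (∑ j, (h j : ℝ) * (x i j / P))‖ ≤ s.card * Z ^ (-η)) →
      (s.card : ℝ) * Z ^ (-η) ≤
        ((s.filter (fun i => ∀ j, Int.fract ((x i j - t j) / P) < Z ^ (-β))).card : ℝ) := by
  have hR1 : (1 : ℝ) ≤ R := by exact_mod_cast hR
  have hR0 : (0 : ℝ) < R := by linarith
  set κ : ℝ := η / (8 * R) with hκ
  have hκ0 : 0 < κ := by positivity
  set β : ℝ := κ / (2 * R) with hβ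
  have hβ0 : 0 < β := by positivity
  have hβκ : β ≤ κ / 2 := by
    rw [hβ]
    apply div_le_div_of_nonneg_left hκ0.le (by norm_num) (by linarith)
  have hβR : β * R = κ / 2 := by rw [hβ]; field_simp
  have hκη : κ ≤ η / 8 := by
    rw [hκ]
    apply div_le_div_of_nonneg_left hη.le (by norm_num) (by linarith)
  have hκR : κ * (3 * R) = 3 / 8 * η := by rw [hκ]; field_simp
  refine ⟨β, hβ0, ?_⟩
  filter_upwards [eventually_ge_atTop (1 : ℝ), ev_pow (-κ) (-β) 6 (by linarith),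
    ev_pow (-κ) (-(κ / 2)) (4 * (4 * 2 ^ R)) (by linarith),
    ev_pow (3 / 8 * η - η) (-(κ / 2)) ((2 : ℝ) ^ (3 * R) * (4 * 2 ^ R)) (by linarith),
    ev_pow (-η) (-(κ / 2)) (2 * 2 ^ R) (by linarith), ev_pow κ η 8 (by linarith),
    ev_pow (3 * κ) η 8 (by linarith)]
    with Z hZ1 p1 p2 p3 p4 p5 p6
  intro ι s x t P hsum
  have hZ0 : 0 < Z := by linarith
  set K : ℕ := ⌈Z ^ κ⌉₊ with hK
  have hZκ : 1 ≤ Z ^ κ := Real.one_le_rpow hZ1 hκ0.le
  have hK1 : Z ^ κ ≤ K := Nat.le_ceil _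
  have hK2 : (K : ℝ) ≤ 2 * Z ^ κ := by
    have := Nat.ceil_lt_add_one (show (0 : ℝ) ≤ Z ^ κ by linarith)
    linarith
  have hK0 : (0 : ℝ) < K := by linarith
  have hKpos : 1 ≤ K := by exact_mod_cast (show (0 : ℝ) < K from hK0)
  have hinv : 1 / (K : ℝ) ≤ Z ^ (-κ) := by
    rw [Real.rpow_neg hZ0.le, ← one_div]
    exact one_div_le_one_div_of_le (by linarith) hK1
  set w : ℝ := Z ^ (-β) with hw
  have hw0 : 0 < w := Real.rpow_pos_of_pos hZ0 _
  have hw1 : w ≤ 1 := Real.rpow_le_one_of_one_le_of_nonpos hZ1 (by linarith)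
  have h3K : 3 / (K : ℝ) ≤ w / 2 := by
    have : 3 / (K : ℝ) = 3 * (1 / K) := by ring
    rw [this]
    linarith
  have hmain := discJ_low hR s (fun i j => (x i j - t j) / P) K hKpos (s.card * Z ^ (-η))
    (by positivity) (by
      intro h hh hhK
      have h1 : ∀ j, |(h j : ℝ)| ≤ Z ^ η := by
        intro j
        have h5 : ((h j).natAbs : ℝ) < (K : ℝ) ^ 3 := by exact_mod_cast hhK j
        have h6 : |(h j : ℝ)| = ((h j).natAbs : ℝ) := by
          rw [Nat.cast_natAbs]; push_cast; rfl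
        rw [h6]
        refine h5.le.trans ?_
        calc (K : ℝ) ^ 3 ≤ (2 * Z ^ κ) ^ 3 := by gcongr
          _ = 8 * Z ^ (3 * κ) := by
            rw [mul_pow, ← Real.rpow_natCast (Z ^ κ), ← Real.rpow_mul hZ0.le]
            norm_num
            rw [mul_comm]
          _ ≤ _ := p6
      have h2 := hsum h hh h1
      have h3 : ∑ i ∈ s, e (∑ j, (h j : ℝ) * ((x i j - t j) / P)) =
          e (-∑ j, (h j : ℝ) * (t j / P)) * ∑ i ∈ s, e (∑ j, (h j : ℝ) * (x i j / P)) := by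
        rw [mul_sum]
        refine sum_congr rfl fun i _ => ?_
        rw [← e_add]
        congr 1
        rw [← sub_eq_neg_add, ← sum_sub_distrib]
        refine sum_congr rfl fun j _ => ?_
        ring
      rw [h3, norm_mul, norm_e, one_mul]
      exact h2) (fun _ => 0) (fun _ => w) (fun _ => le_rfl) (fun _ => hw1) w (fun _ => by ring)
    (by linarith)
  have hfil : (s.filter (fun i => ∀ j, (0 : ℝ) ≤ Int.fract ((x i j - t j) / P) ∧
      Int.fract ((x i j - t j) / P) < w)) =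
      s.filter (fun i => ∀ j, Int.fract ((x i j - t j) / P) < w) := by
    apply filter_congr
    intro i _
    constructor
    · intro h j
      exact (h j).2
    · intro h j
      exact ⟨Int.fract_nonneg _, h j⟩
  rw [hfil] at hmain
  refine le_trans ?_ hmain
  have hs0 : (0 : ℝ) ≤ s.card := Nat.cast_nonneg _
  have a1 : Z ^ (-(κ / 2)) / 2 ^ R ≤ (w - 3 / K) ^ R := by
    have : (w / 2) ^ R = Z ^ (-(κ / 2)) / 2 ^ R := by
      rw [div_pow, hw, ← Real.rpow_natCast (Z ^ (-β)), ← Real.rpow_mul hZ0.le]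
      congr 2
      linarith
    rw [← this]
    exact pow_le_pow_left₀ (by positivity) (by linarith) R
  have a2 : 4 * (s.card : ℝ) / K ≤ s.card * (Z ^ (-(κ / 2)) / 2 ^ R / 4) := by
    have e1 : 4 * (s.card : ℝ) / K = s.card * (4 * (1 / K)) := by ring
    rw [e1]
    apply mul_le_mul_of_nonneg_left _ hs0
    rw [div_div, le_div_iff₀ (by positivity)]
    calc 4 * (1 / (K : ℝ)) * (2 ^ R * 4) ≤ 4 * Z ^ (-κ) * (2 ^ R * 4) := by gcongr
      _ = 4 * (4 * 2 ^ R) * Z ^ (-κ) := by ring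
      _ ≤ _ := p2
  have a3 : (K : ℝ) ^ (3 * R) * (s.card * Z ^ (-η)) ≤ s.card * (Z ^ (-(κ / 2)) / 2 ^ R / 4) := by
    have e1 : (K : ℝ) ^ (3 * R) * (s.card * Z ^ (-η)) = s.card * ((K : ℝ) ^ (3 * R) * Z ^ (-η)) := by
      ring
    rw [e1]
    apply mul_le_mul_of_nonneg_left _ hs0
    rw [div_div, le_div_iff₀ (by positivity)]
    have e2 : (K : ℝ) ^ (3 * R) ≤ 2 ^ (3 * R) * Z ^ (3 / 8 * η) := by
      calc (K : ℝ) ^ (3 * R) ≤ (2 * Z ^ κ) ^ (3 * R) := by gcongr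
        _ = 2 ^ (3 * R) * Z ^ (3 / 8 * η) := by
          rw [mul_pow, ← Real.rpow_natCast (Z ^ κ), ← Real.rpow_mul hZ0.le]
          congr 2
          push_cast
          exact hκR
    calc (K : ℝ) ^ (3 * R) * Z ^ (-η) * (2 ^ R * 4)
        ≤ 2 ^ (3 * R) * Z ^ (3 / 8 * η) * Z ^ (-η) * (2 ^ R * 4) := by gcongr
      _ = (2 : ℝ) ^ (3 * R) * (4 * 2 ^ R) * Z ^ (3 / 8 * η - η) := by
        rw [Real.rpow_sub hZ0, Real.rpow_neg hZ0.le]
        ring
      _ ≤ _ := p3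
  have a4 : (s.card : ℝ) * Z ^ (-η) ≤ s.card * (Z ^ (-(κ / 2)) / 2 ^ R / 2) := by
    apply mul_le_mul_of_nonneg_left _ hs0
    rw [div_div, le_div_iff₀ (by positivity)]
    linarith
  have a5 : (s.card : ℝ) * (Z ^ (-(κ / 2)) / 2 ^ R) ≤ s.card * (w - 3 / K) ^ R := by gcongr
  have : (s.card : ℝ) * (Z ^ (-(κ / 2)) / 2 ^ R) = s.card * (Z ^ (-(κ / 2)) / 2 ^ R / 2) +
      s.card * (Z ^ (-(κ / 2)) / 2 ^ R / 4) + s.card * (Z ^ (-(κ / 2)) / 2 ^ R / 4) := by ring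
  linarith

end Pool.Agent.N542.PR
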