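import Pool.Agent.H256R2.SC.R
import Pool.Agent.TH915.PW.Crit

set_option autoImplicit false
set_option maxHeartbeats 4000000

/-! Residue classes modulo one small modulus which cover a window of Rankin's length. -/

namespace Pool.Agent.N542.PR

open Finset Filter Topology
open Pool.Agent.TH915.PW (crt_small)

/-- Rankin's function -/
noncomputable def RK (x : ℝ) : ℝ :=
  Real.log x * Real.log (Real.log x) * Real.log (Real.log (Real.log (Real.log x))) /
    (Real.log (Real.log (Real.log x))) ^ 2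

/-- the same function of `y = log x` -/
noncomputable def rk (y : ℝ) : ℝ :=
  y * Real.log y * Real.log (Real.log (Real.log y)) / (Real.log (Real.log y)) ^ 2

/-- primes in `(y, 4 y]` -/
lemma primes_four : ∀ᶠ y : ℝ in atTop, y / Real.log y / 2 ≤
    (((Ioc ⌊y⌋₊ ⌊4 * y⌋₊).filter Nat.Prime).card : ℝ) := by
  have e1 : ∀ᶠ y : ℝ in atTop, Real.log (4 * y + 2) + 2 * √(4 * y) * Real.log (4 * y) + 1 ≤
      y / 10 := by
    have h1 := (isLittleO_log_rpow_atTop (show (0 : ℝ) < 1 / 4 by norm_num)).def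
      (show (0 : ℝ) < 1 by norm_num)
    have t1 : Tendsto (fun y : ℝ => 4 * y + 2) atTop atTop :=
      (tendsto_id.const_mul_atTop (by norm_num)).atTop_add tendsto_const_nhds
    have t2 : Tendsto (fun y : ℝ => y ^ (1 / 4 : ℝ)) atTop atTop :=
      tendsto_rpow_atTop (by norm_num)
    filter_upwards [t1.eventually h1, t2.eventually_ge_atTop 200, eventually_ge_atTop (4 : ℝ)]
      with y h1 h2 h3
    have hy0 : 0 < y := by linarith
    rw [Real.norm_of_nonneg (Real.log_nonneg (by linarith)),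
      Real.norm_of_nonneg (by positivity), one_mul] at h1
    have h4 : Real.log (4 * y) ≤ Real.log (4 * y + 2) := Real.log_le_log (by linarith) (by linarith)
    have h5 : (4 * y + 2) ^ (1 / 4 : ℝ) ≤ 2 * y ^ (1 / 4 : ℝ) := by
      calc (4 * y + 2) ^ (1 / 4 : ℝ) ≤ (16 * y) ^ (1 / 4 : ℝ) :=
            Real.rpow_le_rpow (by linarith) (by linarith) (by norm_num)
        _ = 16 ^ (1 / 4 : ℝ) * y ^ (1 / 4 : ℝ) := Real.mul_rpow (by norm_num) hy0.le
        _ = 2 * y ^ (1 / 4 : ℝ) := by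
          congr 1
          rw [show (16 : ℝ) = 2 ^ (4 : ℝ) by norm_num, ← Real.rpow_mul (by norm_num)]
          norm_num
    have h6 : √(4 * y) = 2 * y ^ (1 / 2 : ℝ) := by
      rw [Real.sqrt_eq_rpow, Real.mul_rpow (by norm_num) hy0.le]
      congr 1
      rw [show (4 : ℝ) = 2 ^ (2 : ℝ) by norm_num, ← Real.rpow_mul (by norm_num)]
      norm_num
    set z := y ^ (1 / 4 : ℝ) with hz
    have hz2 : y ^ (1 / 2 : ℝ) = z ^ 2 := by
      rw [hz, ← Real.rpow_natCast, ← Real.rpow_mul hy0.le]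
      norm_num
    have hz4 : y = z ^ 4 := by
      rw [hz, ← Real.rpow_natCast, ← Real.rpow_mul hy0.le]
      norm_num
    rw [h6, hz2]
    have h7 : Real.log (4 * y) ≤ 2 * z := by linarith
    have h8 : 2 * (2 * z ^ 2) * Real.log (4 * y) ≤ 2 * (2 * z ^ 2) * (2 * z) := by gcongr
    have h9 : Real.log (4 * y + 2) ≤ 2 * z := by linarith
    nlinarith [pow_pos (show (0 : ℝ) < z by linarith) 3, pow_pos (show (0 : ℝ) < z by linarith) 2,
      mul_le_mul_of_nonneg_right h2 (pow_nonneg (show (0 : ℝ) ≤ z by linarith) 3),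
      mul_le_mul_of_nonneg_right h2 (pow_nonneg (show (0 : ℝ) ≤ z by linarith) 2)]
  filter_upwards [e1, eventually_ge_atTop (16 : ℝ)] with y h1 h2
  have hy0 : 0 < y := by linarith
  have hl0 : 0 < Real.log y := Real.log_pos (by linarith)
  have h3 := Chebyshev.theta_ge' (x := 4 * y) (by linarith)
  have h4 := Chebyshev.theta_le_log4_mul_x (x := y) hy0.le
  have h5 : Chebyshev.theta (4 * y) - Chebyshev.theta y ≤
      (((Ioc ⌊y⌋₊ ⌊4 * y⌋₊).filter Nat.Prime).card : ℝ) * Real.log (4 * y) := by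
    have hfl : ⌊y⌋₊ ≤ ⌊4 * y⌋₊ := Nat.floor_le_floor (by linarith)
    have h6 : Chebyshev.theta (4 * y) = Chebyshev.theta y +
        ∑ p ∈ (Ioc ⌊y⌋₊ ⌊4 * y⌋₊).filter Nat.Prime, Real.log p := by
      rw [Chebyshev.theta, Chebyshev.theta, ← Finset.sum_union]
      · congr 1
        rw [← Finset.filter_union]
        congr 1
        ext n
        simp only [mem_union, mem_Ioc]
        omega
      · apply Finset.disjoint_filter_filter
        rw [Finset.disjoint_left]
        intro n hn hn2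
        rw [mem_Ioc] at hn hn2
        omega
    rw [h6, add_sub_cancel_left]
    calc ∑ p ∈ (Ioc ⌊y⌋₊ ⌊4 * y⌋₊).filter Nat.Prime, Real.log p
        ≤ ∑ _p ∈ (Ioc ⌊y⌋₊ ⌊4 * y⌋₊).filter Nat.Prime, Real.log (4 * y) := by
          apply sum_le_sum
          intro p hp
          rw [mem_filter, mem_Ioc] at hp
          apply Real.log_le_log
          · exact_mod_cast hp.2.pos
          · have : (p : ℝ) ≤ (⌊4 * y⌋₊ : ℕ) := by exact_mod_cast hp.1.2
            exact this.trans (Nat.floor_le (by linarith))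
      _ = _ := by rw [sum_const, nsmul_eq_mul]
  have h6 : Real.log 4 = 2 * Real.log 2 := by
    rw [show (4 : ℝ) = 2 ^ 2 by norm_num, Real.log_pow]; norm_num
  have h7 := Real.log_two_gt_d9
  have h7' := Real.log_two_lt_d9
  have h8 : y ≤ (((Ioc ⌊y⌋₊ ⌊4 * y⌋₊).filter Nat.Prime).card : ℝ) * Real.log (4 * y) := by
    nlinarith
  have h9 : Real.log (4 * y) ≤ 2 * Real.log y := by
    rw [← Real.log_rpow hy0]
    apply Real.log_le_log (by linarith)
    norm_num
    nlinarith
  have h10 : y ≤ (((Ioc ⌊y⌋₊ ⌊4 * y⌋₊).filter Nat.Prime).card : ℝ) * (2 * Real.log y) :=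
    h8.trans (by gcongr)
  rw [div_div, div_le_iff₀ (by positivity)]
  linarith

lemma lg_double {a b : ℝ} (hb : 0 < b) (h : b ≤ 2 * a) (ha : 2 ≤ a) :
    Real.log b ≤ 2 * Real.log a := by
  have h1 : Real.log b ≤ Real.log (2 * a) := Real.log_le_log hb h
  rw [Real.log_mul (by norm_num) (by linarith)] at h1
  have h2 : Real.log 2 ≤ Real.log a := Real.log_le_log (by norm_num) (by linarith)
  linarith

/-- a window of Rankin's length around a class of a small modulus -/
theorem cover (θ : ℝ) (hθ : 0 < θ) (hθ1 : θ ≤ 1) : ∃ κ : ℝ, 0 < κ ∧ ∀ᶠ Z : ℝ in atTop,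
    ∃ (P : ℕ) (a : ℤ), 1 ≤ P ∧ (P : ℝ) ≤ Z ^ θ ∧ ∀ k : ℤ, |(k : ℝ)| ≤ κ * RK Z + 1 →
      ∃ p : ℕ, p.Prime ∧ (p : ℝ) ≤ Real.log Z ∧ p ∣ P ∧ (p : ℤ) ∣ a + k := by
  classical
  obtain ⟨C, hC, y₀, hsurv⟩ := Pool.Agent.H256R2.SC.survivors
  set c : ℝ := min 1 (1 / (2 * C)) with hc
  have hc0 : 0 < c := lt_min one_pos (by positivity)
  have hc1 : c ≤ 1 := min_le_left _ _
  have hc2 : C * c ≤ 1 / 2 := by
    calc C * c ≤ C * (1 / (2 * C)) := by gcongr; exact min_le_right _ _
      _ = 1 / 2 := by field_simp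
  set κ : ℝ := c * θ / 200 with hκ
  have hκ0 : 0 < κ := by positivity
  refine ⟨κ, hκ0, ?_⟩
  have t0 : Tendsto Real.log atTop atTop := Real.tendsto_log_atTop
  have ty : Tendsto (fun Z : ℝ => θ / 6 * Real.log Z) atTop atTop :=
    t0.const_mul_atTop (by positivity)
  have t1 : Tendsto (fun y : ℝ => Real.log y) atTop atTop := t0
  have t2 : Tendsto (fun y : ℝ => Real.log (Real.log y)) atTop atTop := t0.comp t1
  have t3 : Tendsto (fun y : ℝ => Real.log (Real.log (Real.log y))) atTop atTop := t0.comp t2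
  have key : ∀ᶠ y : ℝ in atTop, 2 ≤ Real.log (Real.log (Real.log y)) ∧
      2 * (Real.log (Real.log y)) ^ 2 / c ≤ Real.log y ∧ y₀ ≤ y ∧ 6 / θ ≤ y ∧ 16 ≤ y ∧
      y / Real.log y / 2 ≤ (((Ioc ⌊y⌋₊ ⌊4 * y⌋₊).filter Nat.Prime).card : ℝ) ∧
      2 ≤ Real.log (Real.log y) ∧ 2 ≤ Real.log y := by
    have h2 : ∀ᶠ x : ℝ in atTop, 2 * (Real.log x) ^ 2 / c ≤ x := by
      have h3 := (Real.isLittleO_pow_log_id_atTop (n := 2)).def (show (0 : ℝ) < c / 2 by positivity)
      filter_upwards [h3, eventually_ge_atTop (1 : ℝ)] with x h3 h4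
      rw [Real.norm_of_nonneg (pow_nonneg (Real.log_nonneg h4) 2), id, Real.norm_of_nonneg
        (by linarith)] at h3
      rw [div_le_iff₀ hc0]
      linarith
    filter_upwards [t3.eventually_ge_atTop 2, t1.eventually h2, eventually_ge_atTop y₀,
      eventually_ge_atTop (6 / θ), eventually_ge_atTop (16 : ℝ), primes_four,
      t2.eventually_ge_atTop 2, t1.eventually_ge_atTop 2] with y h1 h2 h3 h4 h5 h6 h7 h8
    exact ⟨h1, h2, h3, h4, h5, h6, h7, h8⟩
  filter_upwards [ty.eventually key, eventually_ge_atTop (1 : ℝ)] with Z hZ hZ1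
  set l : ℝ := Real.log Z with hl
  set y : ℝ := θ / 6 * l with hy
  obtain ⟨g1, g2, g3, g4, g5, g6, g7, g8⟩ := hZ
  have hZ0 : 0 < Z := by linarith
  have hy0 : 0 < y := by linarith
  have hly : l = 6 / θ * y := by rw [hy]; field_simp
  set l1 := Real.log y with hl1
  set l2 := Real.log l1 with hl2
  set l3 := Real.log l2 with hl3
  have hl32 : l3 ≤ l2 := by
    have := Real.log_le_sub_one_of_pos (show 0 < l2 by linarith)
    linarith
  set A : ℝ := y * l1 * l3 / l2 ^ 2 with hA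
  have hl2p : 0 < l2 ^ 2 := by positivity
  have hA4 : 4 * y ≤ c * A := by
    have h1 : 2 * l2 ^ 2 ≤ c * l1 := by
      rw [div_le_iff₀ hc0] at g2
      linarith
    rw [hA]
    rw [show c * (y * l1 * l3 / l2 ^ 2) = y * (c * l1) * l3 / l2 ^ 2 by ring, le_div_iff₀ hl2p]
    calc 4 * y * l2 ^ 2 = y * (2 * l2 ^ 2) * 2 := by ring
      _ ≤ y * (c * l1) * l3 := by gcongr
  set L : ℕ := ⌊c * A⌋₊ with hL
  have hA0 : 0 ≤ c * A := by linarith
  have hL1 : (L : ℝ) ≤ c * A := Nat.floor_le hA0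
  have hL2 : c * A < L + 1 := Nat.lt_floor_add_one _
  have hyL : y ≤ L := by linarith
  have hLy : (L : ℝ) ≤ y * l1 ^ 2 := by
    refine hL1.trans ?_
    have h1 : A ≤ y * l1 := by
      rw [hA, div_le_iff₀ hl2p]
      have : l3 ≤ l2 ^ 2 := by nlinarith
      calc y * l1 * l3 ≤ y * l1 * l2 ^ 2 := by gcongr
        _ = _ := by ring
    have h0 : 0 ≤ A := by positivity
    calc c * A ≤ 1 * A := by gcongr
      _ ≤ y * l1 := by linarith
      _ ≤ y * l1 ^ 2 := by
        apply mul_le_mul_of_nonneg_left _ hy0.le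
        nlinarith
  obtain ⟨b, hb1, hb2⟩ := hsurv y g3 L hyL hLy
  set U : Finset ℕ := (Finset.Icc 1 L).filter (fun k => ∀ p : ℕ, p.Prime → (p : ℝ) ≤ y →
        ¬ k ≡ b p [MOD p]) with hU
  set T : Finset ℕ := (Ioc ⌊y⌋₊ ⌊4 * y⌋₊).filter Nat.Prime with hT
  have hUT : U.card ≤ T.card := by
    have h1 : (U.card : ℝ) ≤ T.card := by
      refine le_trans ?_ g6
      refine le_trans hb2 ?_
      rw [div_div, div_le_div_iff₀ (by positivity) (by positivity)]
      have h2 : (L : ℝ) * l2 ^ 2 ≤ c * (y * l1 * l3) := by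
        have h3 : (L : ℝ) * l2 ^ 2 ≤ c * A * l2 ^ 2 := by gcongr
        have h4 : c * A * l2 ^ 2 = c * (y * l1 * l3) := by rw [hA]; field_simp
        linarith
      calc C * L * l2 ^ 2 * (l1 * 2) = C * (L * l2 ^ 2) * (l1 * 2) := by ring
        _ ≤ C * (c * (y * l1 * l3)) * (l1 * 2) := by gcongr
        _ = (C * c) * 2 * (y * (l1 ^ 2 * l3)) := by ring
        _ ≤ (1 / 2) * 2 * (y * (l1 ^ 2 * l3)) := by gcongr
        _ = _ := by ring
    exact_mod_cast h1
  obtain ⟨φ⟩ : Nonempty ({k // k ∈ U} ↪ {p // p ∈ T}) :=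
    Function.Embedding.nonempty_of_card_le (by
      rw [Fintype.card_coe, Fintype.card_coe]
      exact hUT)
  set h : ℕ := L / 2 with hh
  set S : Finset ℕ := (Finset.range (⌊4 * y⌋₊ + 1)).filter Nat.Prime with hS
  have hSp : ∀ p ∈ S, p.Prime := fun p hp => (Finset.mem_filter.mp hp).2
  have hSle : ∀ p ∈ S, (p : ℝ) ≤ 4 * y := by
    intro p hp
    have h5 := Finset.mem_range.mp (Finset.mem_filter.mp hp).1
    have h6 : (p : ℝ) ≤ (⌊4 * y⌋₊ : ℕ) := by exact_mod_cast Nat.lt_succ_iff.mp h5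
    exact h6.trans (Nat.floor_le (by linarith))
  have hSmem : ∀ p : ℕ, p.Prime → (p : ℝ) ≤ 4 * y → p ∈ S := by
    intro p hp hpl
    rw [hS, Finset.mem_filter, Finset.mem_range]
    exact ⟨Nat.lt_succ_of_le (Nat.le_floor hpl), hp⟩
  set cl : ℕ → ℕ := fun p => if (p : ℝ) ≤ y then b p else
    (if hx : ∃ k : {k // k ∈ U}, ((φ k : {p // p ∈ T}) : ℕ) = p then (hx.choose : ℕ) else 0) with hcl
  obtain ⟨r0, hr0⟩ := crt_small S hSp (fun p => cl p + (p - 1) * h)
  refine ⟨primorial ⌊4 * y⌋₊, r0, primorial_pos _, ?_, ?_⟩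
  · have h1 : (primorial ⌊4 * y⌋₊ : ℝ) ≤ 4 ^ ⌊4 * y⌋₊ := by
      exact_mod_cast primorial_le_four_pow _
    refine h1.trans ?_
    rw [← Real.rpow_natCast]
    calc (4 : ℝ) ^ ((⌊4 * y⌋₊ : ℕ) : ℝ) ≤ 4 ^ (4 * y) :=
          Real.rpow_le_rpow_of_exponent_le (by norm_num) (Nat.floor_le (by linarith))
      _ = Real.exp (Real.log 4 * (4 * y)) := by
          rw [Real.rpow_def_of_pos (by norm_num)]
      _ ≤ Real.exp (l * θ) := by
          apply Real.exp_le_exp.mpr
          have h6 : Real.log 4 = 2 * Real.log 2 := by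
            rw [show (4 : ℝ) = 2 ^ 2 by norm_num, Real.log_pow]; norm_num
          have h7' := Real.log_two_lt_d9
          have h8 : l * θ = 6 * y := by rw [hy]; ring
          rw [h8, h6]
          nlinarith
      _ = Z ^ θ := by rw [Real.rpow_def_of_pos hZ0]
  · intro k hk
    -- comparison of the scales
    have hRK : RK Z ≤ 24 / θ * A := by
      have hl0 : 0 < l := by rw [hly]; positivity
      have b1 : y ≤ l := by
        rw [hly]
        have : 1 ≤ 6 / θ := by rw [le_div_iff₀ hθ]; linarith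
        nlinarith
      have b2 : l ≤ y ^ 2 := by
        rw [hly, pow_two]
        gcongr
      have b3 : l1 ≤ Real.log l := Real.log_le_log hy0 b1
      have b4 : Real.log l ≤ 2 * l1 := by
        have := Real.log_le_log hl0 b2
        rw [Real.log_pow] at this
        exact_mod_cast this
      have b5 : l2 ≤ Real.log (Real.log l) := Real.log_le_log (by linarith) b3
      have b6 : Real.log (Real.log l) ≤ 2 * l2 := lg_double (by linarith) b4 g8
      have b7 : Real.log (Real.log (Real.log l)) ≤ 2 * l3 := lg_double (by linarith) b6 g7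
      have b8 : l3 ≤ Real.log (Real.log (Real.log l)) := Real.log_le_log (by linarith) b5
      have hpp : 0 < Real.log (Real.log l) := by linarith
      rw [RK, ← hl, hA, div_le_iff₀ (pow_pos hpp 2)]
      have hl3p : 0 < l3 := by linarith
      calc l * Real.log l * Real.log (Real.log (Real.log l))
          ≤ (6 / θ * y) * (2 * l1) * (2 * l3) := by
            rw [← hly]
            gcongr
            linarith
        _ = 24 / θ * (y * l1 * l3 / l2 ^ 2) * l2 ^ 2 := by field_simp; ring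
        _ ≤ _ := by gcongr
    have hk' : |(k : ℝ)| ≤ 12 / 100 * (c * A) + 1 := by
      refine hk.trans ?_
      have : κ * RK Z ≤ κ * (24 / θ * A) := by gcongr
      have e1 : κ * (24 / θ * A) = 12 / 100 * (c * A) := by rw [hκ]; field_simp; ring
      linarith
    obtain ⟨hk1, hk2⟩ := abs_le.mp hk'
    have hLh : (L : ℝ) ≤ 2 * h + 1 := by
      have : L ≤ 2 * h + 1 := by omega
      exact_mod_cast this
    have hLh' : 2 * (h : ℝ) ≤ L := by
      have : 2 * h ≤ L := by omega
      exact_mod_cast this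
    have hcA : 64 ≤ c * A := by linarith
    have m1 : (1 : ℤ) ≤ k + h := by
      have : (0 : ℝ) < ((k + h : ℤ) : ℝ) := by
        push_cast
        linarith
      have : (0 : ℤ) < k + h := by exact_mod_cast this
      omega
    have m2 : k + h ≤ L := by
      have : ((k + h : ℤ) : ℝ) ≤ ((L : ℤ) : ℝ) := by
        push_cast
        linarith
      exact_mod_cast this
    obtain ⟨k', hk'e⟩ : ∃ k' : ℕ, (k' : ℤ) = k + h := ⟨(k + h).toNat, by omega⟩
    have hkIcc : k' ∈ Finset.Icc 1 L := by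
      rw [Finset.mem_Icc]
      omega
    have hfin : ∀ p ∈ S, (k' : ℤ) ≡ cl p [ZMOD p] → (p : ℤ) ∣ (r0 : ℤ) + k := by
      intro p hp hmod
      have h6 : (p : ℤ) ∣ (r0 : ℤ) + (cl p + ((p : ℤ) - 1) * h) := by
        have h7 := Int.natCast_dvd_natCast.mpr (hr0 p hp)
        push_cast [Nat.cast_sub (hSp p hp).one_le] at h7
        exact h7
      have h8 : (p : ℤ) ∣ (k' : ℤ) - cl p := hmod.symm.dvd
      have h9 : (r0 : ℤ) + k = ((r0 : ℤ) + (cl p + ((p : ℤ) - 1) * h)) + ((k' : ℤ) - cl p) -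
          p * h := by
        rw [hk'e]; ring
      rw [h9]
      exact dvd_sub (dvd_add h6 h8) (Dvd.intro _ rfl)
    have hle : ∀ p ∈ S, (p : ℝ) ≤ l := by
      intro p hp
      refine (hSle p hp).trans ?_
      rw [hy]
      have hl0 : 0 < l := by rw [hly]; positivity
      nlinarith
    have hdvd : ∀ p ∈ S, p ∣ primorial ⌊4 * y⌋₊ := fun p hp => Finset.dvd_prod_of_mem _ hp
    by_cases hkU : k' ∈ U
    · set p : ℕ := ((φ ⟨k', hkU⟩ : {p // p ∈ T}) : ℕ) with hp
      have hpT : p ∈ T := (φ ⟨k', hkU⟩).2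
      rw [hT, mem_filter, mem_Ioc] at hpT
      have hpS : p ∈ S := by
        apply hSmem p hpT.2
        have : (p : ℝ) ≤ (⌊4 * y⌋₊ : ℕ) := by exact_mod_cast hpT.1.2
        exact this.trans (Nat.floor_le (by linarith))
      have hpy : ¬ (p : ℝ) ≤ y := by
        rw [not_le]
        exact (Nat.floor_lt hy0.le).mp hpT.1.1
      refine ⟨p, hpT.2, hle p hpS, hdvd p hpS, hfin p hpS ?_⟩
      have hex : ∃ k : {k // k ∈ U}, ((φ k : {p // p ∈ T}) : ℕ) = p := ⟨⟨k', hkU⟩, rfl⟩
      have e1 : cl p = (hex.choose : ℕ) := by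
        simp only [hcl]
        rw [if_neg hpy, dif_pos hex]
      have e2 : hex.choose = ⟨k', hkU⟩ := by
        apply φ.injective
        apply Subtype.ext
        exact hex.choose_spec
      rw [e1, e2]
    · have h5 : ∃ p : ℕ, p.Prime ∧ (p : ℝ) ≤ y ∧ k' ≡ b p [MOD p] := by
        by_contra hcon
        push Not at hcon
        exact hkU (Finset.mem_filter.mpr ⟨hkIcc, hcon⟩)
      obtain ⟨p, hp, hpl, hkb⟩ := h5
      have hpS : p ∈ S := hSmem p hp (by linarith)
      refine ⟨p, hp, hle p hpS, hdvd p hpS, hfin p hpS ?_⟩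
      have e1 : cl p = b p := by
        simp only [hcl]
        rw [if_pos hpl]
      rw [e1]
      exact (Int.natCast_modEq_iff).mpr hkb

end Pool.Agent.N542.PR
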