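import Pool.Agent.N542.PC.Diff

set_option autoImplicit false
set_option maxHeartbeats 4000000

/-! Newton's formula with a remainder, on both sides of a point. -/

namespace Pool.Agent.N542.PR

open Finset Filter Topology
open Pool.Agent.N542.PC (DF)

/-- iterated differences of a function -/
noncomputable def dd (g : ℝ → ℝ) : ℕ → ℝ → ℝ
  | 0, t => g t
  | m + 1, t => dd g m (t + 1) - dd g m t

lemma dd_comm (g : ℝ → ℝ) (m : ℕ) (t : ℝ) : dd (fun t => g (t + 1) - g t) m t = dd g (m + 1) t := by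
  induction m generalizing t with
  | zero => simp [dd]
  | succ m ih =>
    have h1 : dd (fun t => g (t + 1) - g t) (m + 1) t =
      dd (fun t => g (t + 1) - g t) m (t + 1) - dd (fun t => g (t + 1) - g t) m t := rfl
    have h2 : dd g (m + 1 + 1) t = dd g (m + 1) (t + 1) - dd g (m + 1) t := rfl
    rw [h1, h2, ih, ih]

lemma dd_lin (a : ℝ) (g h : ℝ → ℝ) (m : ℕ) (t : ℝ) :
    dd (fun t => a * g t + h t) m t = a * dd g m t + dd h m t := by
  induction m generalizing t with
  | zero => simp [dd]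
  | succ m ih =>
    rw [dd, ih, ih, dd, dd]
    ring

lemma dd_DF (F : ℕ → ℝ → ℝ) (m : ℕ) (t : ℝ) : dd (F 0) m t = DF F m 0 t := by
  induction m generalizing t with
  | zero => simp [dd, DF]
  | succ m ih =>
    rw [dd, ih, ih, DF]

lemma dd_poly (P : Polynomial ℝ) (m : ℕ) : ∃ Q : Polynomial ℝ,
    (∀ t, dd (fun t => P.eval t) m t = Q.eval t) ∧ (Q = 0 ∨ Q.natDegree + m ≤ P.natDegree) := by
  induction m with
  | zero => exact ⟨P, fun t => by simp [dd], Or.inr (by simp)⟩
  | succ m ih =>
    obtain ⟨Q, hQ, hd⟩ := ih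
    refine ⟨Q.comp (Polynomial.X + Polynomial.C 1) - Q, ?_, ?_⟩
    · intro t
      rw [dd, hQ, hQ]
      simp
    · by_cases h0 : Q.comp (Polynomial.X + Polynomial.C 1) - Q = 0
      · exact Or.inl h0
      · right
        have hQ0 : Q ≠ 0 := by
          intro h
          apply h0
          simp [h]
        have hd' := hd.resolve_left hQ0
        have hnd : (Polynomial.X + Polynomial.C (1 : ℝ)).natDegree = 1 :=
          Polynomial.natDegree_X_add_C 1
        have h1 : (Q.comp (Polynomial.X + Polynomial.C 1)).natDegree = Q.natDegree := by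
          rw [Polynomial.natDegree_comp, hnd, mul_one]
        have h2 : Q.comp (Polynomial.X + Polynomial.C 1) ≠ 0 := by
          intro h
          apply hQ0
          have := Polynomial.comp_eq_zero_iff.mp h
          rcases this with h3 | ⟨_, h4⟩
          · exact h3
          · exfalso
            have h5 := congrArg Polynomial.natDegree h4
            rw [hnd, Polynomial.natDegree_C] at h5
            omega
        have h3 : (Q.comp (Polynomial.X + Polynomial.C 1)).leadingCoeff = Q.leadingCoeff := by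
          rw [Polynomial.leadingCoeff_comp (by rw [hnd]; norm_num), Polynomial.leadingCoeff_X_add_C,
            one_pow, mul_one]
        have h4 := Polynomial.degree_sub_lt_left (by
          rw [Polynomial.degree_eq_natDegree h2, Polynomial.degree_eq_natDegree hQ0, h1]) h2 h3
        have h5 := Polynomial.natDegree_lt_natDegree h0 h4
        rw [h1] at h5
        omega

lemma tele (S : ℕ) (s : ℤ) (hs : |s| ≤ S) : ∃ (I : Finset ℤ) (σ : ℤ), (σ = 1 ∨ σ = -1) ∧
    I.card ≤ S ∧ (∀ i ∈ I, |i| ≤ S) ∧ ∀ (g : ℝ → ℝ) (p : ℝ),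
      g (p + s) = g p + σ * ∑ i ∈ I, (g (p + i + 1) - g (p + i)) := by
  rcases le_total 0 s with h | h
  · obtain ⟨n, rfl⟩ := Int.eq_ofNat_of_zero_le h
    have hn : n ≤ S := by
      rw [abs_of_nonneg h] at hs
      exact_mod_cast hs
    refine ⟨(range n).image (fun k : ℕ => (k : ℤ)), 1, Or.inl rfl, ?_, ?_, ?_⟩
    · exact (card_image_le).trans (by rw [card_range]; exact hn)
    · intro i hi
      rw [mem_image] at hi
      obtain ⟨k, hk, rfl⟩ := hi
      rw [mem_range] at hk
      rw [abs_of_nonneg (by positivity)]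
      exact_mod_cast (by omega : k ≤ S)
    · intro g p
      rw [sum_image (fun a _ b _ hab => by simpa using hab)]
      have h1 := Finset.sum_range_sub (fun k : ℕ => g (p + k)) n
      simp only [Nat.cast_zero, add_zero] at h1
      have h2 : ∑ k ∈ range n, (g (p + ((k : ℤ) : ℝ) + 1) - g (p + ((k : ℤ) : ℝ))) =
          ∑ k ∈ range n, (g (p + ((k + 1 : ℕ) : ℝ)) - g (p + (k : ℝ))) := by
        refine sum_congr rfl fun k _ => ?_
        push_cast
        rw [add_assoc]
      rw [h2, h1]
      push_cast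
      ring
  · obtain ⟨n, hn'⟩ := Int.eq_ofNat_of_zero_le (show 0 ≤ -s by omega)
    have hsn : s = -(n : ℤ) := by omega
    subst hsn
    have hn : n ≤ S := by
      rw [abs_neg, abs_of_nonneg (by positivity)] at hs
      exact_mod_cast hs
    refine ⟨(range n).image (fun k : ℕ => -(k : ℤ) - 1), -1, Or.inr rfl, ?_, ?_, ?_⟩
    · exact (card_image_le).trans (by rw [card_range]; exact hn)
    · intro i hi
      rw [mem_image] at hi
      obtain ⟨k, hk, rfl⟩ := hi
      rw [mem_range] at hk
      rw [abs_le]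
      omega
    · intro g p
      rw [sum_image (fun a _ b _ hab => by
        have hab' : -(a : ℤ) - 1 = -(b : ℤ) - 1 := hab
        omega)]
      have h1 := Finset.sum_range_sub (fun k : ℕ => g (p - k)) n
      simp only [Nat.cast_zero, sub_zero] at h1
      have h2 : ∑ k ∈ range n, (g (p + ((-(k : ℤ) - 1 : ℤ) : ℝ) + 1) -
          g (p + ((-(k : ℤ) - 1 : ℤ) : ℝ))) =
          -∑ k ∈ range n, (g (p - ((k + 1 : ℕ) : ℝ)) - g (p - (k : ℝ))) := by
        rw [← sum_neg_distrib]
        refine sum_congr rfl fun k _ => ?_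
        have e1 : p + ((-(k : ℤ) - 1 : ℤ) : ℝ) + 1 = p - k := by push_cast; ring
        have e2 : p + ((-(k : ℤ) - 1 : ℤ) : ℝ) = p - ((k + 1 : ℕ) : ℝ) := by push_cast; ring
        rw [e1, e2]
        ring
      rw [h2, h1]
      push_cast
      rw [← sub_eq_add_neg]
      ring

theorem newton_int (N : ℕ) : ∀ (g : ℝ → ℝ) (p : ℝ) (S : ℕ) (B : ℝ), 0 ≤ B →
    (∀ i : ℤ, |i| ≤ S → |dd g (N + 1) (p + i)| ≤ B) → ∀ s : ℤ, |s| ≤ S →
    ∃ c : ℕ → ℤ, c 0 = 1 ∧ (∀ m, m ≤ N → |(c m : ℝ)| ≤ (S : ℝ) ^ m) ∧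
      |g (p + s) - ∑ m ∈ range (N + 1), (c m : ℝ) * dd g m p| ≤ (S : ℝ) ^ (N + 1) * B := by
  induction N with
  | zero =>
    intro g p S B hB h s hs
    obtain ⟨I, σ, hσ, hI, hIS, hg⟩ := tele S s hs
    refine ⟨fun _ => 1, rfl, ?_, ?_⟩
    · intro m hm
      interval_cases m
      simp
    · rw [hg g p]
      simp only [zero_add, sum_range_one, Int.cast_one, one_mul, dd, pow_one]
      rw [add_sub_cancel_left, abs_mul]
      have h1 : |(σ : ℝ)| = 1 := by rcases hσ with h | h <;> simp [h]
      rw [h1, one_mul]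
      calc |∑ i ∈ I, (g (p + i + 1) - g (p + i))| ≤ ∑ i ∈ I, |g (p + i + 1) - g (p + i)| :=
            abs_sum_le_sum_abs _ _
        _ ≤ ∑ _i ∈ I, B := by
            apply sum_le_sum
            intro i hi
            have := h i (hIS i hi)
            simpa only [zero_add, dd] using this
        _ = I.card * B := by rw [sum_const, nsmul_eq_mul]
        _ ≤ _ := by
            apply mul_le_mul_of_nonneg_right _ hB
            exact_mod_cast hI
  | succ N ih =>
    intro g p S B hB h s hs
    obtain ⟨I, σ, hσ, hI, hIS, hg⟩ := tele S s hs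
    set g1 : ℝ → ℝ := fun t => g (t + 1) - g t with hg1
    have hih := ih g1 p S B hB (by
      intro i hi
      rw [hg1, dd_comm]
      exact h i hi)
    choose! cc hc0 hc1 hc2 using hih
    have hσ1 : |(σ : ℝ)| = 1 := by rcases hσ with h | h <;> simp [h]
    have hS0 : (0 : ℝ) ≤ S := Nat.cast_nonneg _
    refine ⟨fun m => if m = 0 then 1 else σ * ∑ i ∈ I, cc i (m - 1), by simp, ?_, ?_⟩
    · intro m hm
      rcases m with _ | m
      · simp
      · simp only [Nat.succ_ne_zero, if_false, Nat.add_sub_cancel]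
        push_cast
        rw [abs_mul, hσ1, one_mul]
        calc |∑ i ∈ I, (cc i m : ℝ)| ≤ ∑ i ∈ I, |(cc i m : ℝ)| := abs_sum_le_sum_abs _ _
          _ ≤ ∑ _i ∈ I, (S : ℝ) ^ m := sum_le_sum fun i hi => hc1 i (hIS i hi) m (by omega)
          _ = I.card * (S : ℝ) ^ m := by rw [sum_const, nsmul_eq_mul]
          _ ≤ S * (S : ℝ) ^ m := by
            apply mul_le_mul_of_nonneg_right _ (by positivity)
            exact_mod_cast hI
          _ = _ := by ring
    · rw [hg g p, Finset.sum_range_succ']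
      simp only [if_true, Nat.succ_ne_zero, if_false, Nat.add_sub_cancel, Int.cast_one, one_mul]
      have e1 : ∑ k ∈ range (N + 1), ((σ * ∑ i ∈ I, cc i k : ℤ) : ℝ) * dd g (k + 1) p =
          σ * ∑ i ∈ I, ∑ k ∈ range (N + 1), (cc i k : ℝ) * dd g1 k p := by
        rw [sum_comm, mul_sum]
        refine sum_congr rfl fun k _ => ?_
        push_cast
        rw [mul_assoc, sum_mul]
        congr 1
        refine sum_congr rfl fun i _ => ?_
        rw [hg1, dd_comm]
      rw [e1]
      have e2 : g p + (σ : ℝ) * ∑ i ∈ I, (g (p + i + 1) - g (p + i)) -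
          (σ * ∑ i ∈ I, ∑ k ∈ range (N + 1), (cc i k : ℝ) * dd g1 k p + dd g 0 p) =
          σ * ∑ i ∈ I, (g1 (p + i) - ∑ k ∈ range (N + 1), (cc i k : ℝ) * dd g1 k p) := by
        have e3 : ∑ i ∈ I, (g (p + i + 1) - g (p + i)) = ∑ i ∈ I, g1 (p + i) := rfl
        have e4 : dd g 0 p = g p := rfl
        rw [e3, e4, sum_sub_distrib (fun i : ℤ => g1 (p + i))]
        ring
      rw [e2, abs_mul, hσ1, one_mul]
      calc |∑ i ∈ I, (g1 (p + i) - ∑ k ∈ range (N + 1), (cc i k : ℝ) * dd g1 k p)|
          ≤ ∑ i ∈ I, |g1 (p + i) - ∑ k ∈ range (N + 1), (cc i k : ℝ) * dd g1 k p| :=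
            abs_sum_le_sum_abs _ _
        _ ≤ ∑ _i ∈ I, (S : ℝ) ^ (N + 1) * B := sum_le_sum fun i hi => hc2 i (hIS i hi)
        _ = I.card * ((S : ℝ) ^ (N + 1) * B) := by rw [sum_const, nsmul_eq_mul]
        _ ≤ S * ((S : ℝ) ^ (N + 1) * B) := by
            apply mul_le_mul_of_nonneg_right _ (by positivity)
            exact_mod_cast hI
        _ = _ := by ring

end Pool.Agent.N542.PR
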