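import Pool.Agent.N542.PR.Cover
import Pool.Agent.N542.PR.Box
import Pool.Agent.N542.PR.Run
import Pool.Agent.N542.PC.Exp
import Pool.Agent.TH915.PW.APCount

set_option autoImplicit false
set_option maxHeartbeats 4000000

/-! Long runs of values of smoothly varying functions in large prime gaps. -/

namespace Pool.Agent.N542.PR

open Finset Filter Topology
open Pool.Agent.H469R2.NK (e norm_e e_add)
open Pool.Agent.N542.PP (SV)
open Pool.Agent.N542.PC (DF sv_iter exp_primes')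
open Pool.Agent.N542.PQ (power_bounds)
open Pool.Agent.TH915.PW (card_primes)
open Pool.Agent.W147.PS (ev_pow)

lemma rpow_near {Z t : ℝ} (hZ : 0 < Z) (h1 : Z / 2 ≤ t) (h2 : t ≤ 2 * Z) (x : ℝ) :
    t ^ x ≤ 2 ^ |x| * Z ^ x := by
  have ht : 0 < t := by linarith
  rcases le_total 0 x with h | h
  · rw [abs_of_nonneg h, ← Real.mul_rpow (by norm_num) hZ.le]
    exact Real.rpow_le_rpow ht.le h2 h
  · rw [abs_of_nonpos h]
    have e1 : (Z / 2) ^ x = 2 ^ (-x) * Z ^ x := by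
      rw [Real.div_rpow hZ.le (by norm_num), Real.rpow_neg (by norm_num)]
      field_simp
    rw [← e1]
    exact Real.rpow_le_rpow_of_nonpos (by linarith) h1 h

lemma RK_le : ∀ᶠ Z : ℝ in atTop, RK Z ≤ Real.log Z ^ 2 := by
  have t1 := Real.tendsto_log_atTop
  have t2 := t1.comp t1
  have t3 := t1.comp t2
  filter_upwards [t1.eventually_ge_atTop 1, t2.eventually_ge_atTop 1, t3.eventually_ge_atTop 1]
    with Z h1 h2 h3
  simp only [Function.comp] at h2 h3
  rw [RK]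
  set y1 := Real.log Z
  set y2 := Real.log y1
  set y3 := Real.log y2
  have k1 : y2 ≤ y1 := (Real.log_le_sub_one_of_pos (by linarith)).trans (by linarith)
  have k2 : Real.log y3 ≤ y3 := (Real.log_le_sub_one_of_pos (by linarith)).trans (by linarith)
  rw [div_le_iff₀ (by positivity)]
  have k3 : Real.log y3 ≤ y3 ^ 2 := by nlinarith
  have k4 := Real.log_nonneg h3
  calc y1 * y2 * Real.log y3 ≤ y1 * y1 * y3 ^ 2 :=
        mul_le_mul (mul_le_mul_of_nonneg_left k1 (by linarith)) k3 k4 (by positivity)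
    _ = _ := by ring

lemma key (N : ℕ) (g : ℝ → ℝ) (p : ℝ) (S : ℕ) (B w : ℝ) (M : ℕ) (a : ℤ) (hM : 0 < M)
    (hB : 0 ≤ B) (hS : 1 ≤ S)
    (hrem : ∀ i : ℤ, |i| ≤ S → |dd g (N + 1) (p + i)| ≤ B)
    (hm : ∀ m, m ≤ N → Int.fract ((dd g m p - (if m = 0 then (a : ℝ) + 1 / 2 else 0)) / M) < w)
    (h1 : ((N : ℝ) + 1) * ((S : ℝ) ^ N * (M * w)) ≤ 1 / 4) (h2 : (S : ℝ) ^ (N + 1) * B ≤ 1 / 4)
    (s : ℤ) (hs : |s| ≤ S) : ∃ K : ℤ, |g (p + s) - (a + 1 / 2 + M * K)| ≤ 1 / 2 := by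
  obtain ⟨c, hc0, hc1, hc2⟩ := newton_int N g p S B hB hrem s hs
  set t : ℕ → ℝ := fun m => if m = 0 then (a : ℝ) + 1 / 2 else 0 with ht
  have hM0 : (0 : ℝ) < M := by exact_mod_cast hM
  have hdec : ∀ m, dd g m p = t m + M * ⌊(dd g m p - t m) / M⌋ +
      M * Int.fract ((dd g m p - t m) / M) := by
    intro m
    have e1 := Int.floor_add_fract ((dd g m p - t m) / M)
    have e2 : (M : ℝ) * ((dd g m p - t m) / M) = dd g m p - t m := by field_simp
    rw [← e1, mul_add] at e2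
    linarith
  have hsum : ∑ m ∈ range (N + 1), (c m : ℝ) * dd g m p = (a + 1 / 2) +
      M * ((∑ m ∈ range (N + 1), c m * ⌊(dd g m p - t m) / M⌋ : ℤ) : ℝ) +
      ∑ m ∈ range (N + 1), (c m : ℝ) * (M * Int.fract ((dd g m p - t m) / M)) := by
    have e1 : ∑ m ∈ range (N + 1), (c m : ℝ) * t m = (a : ℝ) + 1 / 2 := by
      rw [Finset.sum_range_succ']
      simp only [ht, Nat.succ_ne_zero, if_false, mul_zero, sum_const_zero, zero_add, if_true, hc0,
        Int.cast_one, one_mul]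
    rw [← e1]
    push_cast
    rw [mul_sum, ← sum_add_distrib, ← sum_add_distrib]
    refine sum_congr rfl fun m _ => ?_
    have := hdec m
    calc (c m : ℝ) * dd g m p = c m * (t m + M * ⌊(dd g m p - t m) / M⌋ +
      M * Int.fract ((dd g m p - t m) / M)) := by rw [← this]
      _ = _ := by ring
  have hS1 : (1 : ℝ) ≤ S := by exact_mod_cast hS
  have hbound : |∑ m ∈ range (N + 1), (c m : ℝ) * (M * Int.fract ((dd g m p - t m) / M))| ≤
      1 / 4 := by
    calc |∑ m ∈ range (N + 1), (c m : ℝ) * (M * Int.fract ((dd g m p - t m) / M))|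
        ≤ ∑ m ∈ range (N + 1), |(c m : ℝ) * (M * Int.fract ((dd g m p - t m) / M))| :=
          abs_sum_le_sum_abs _ _
      _ ≤ ∑ _m ∈ range (N + 1), (S : ℝ) ^ N * (M * w) := by
          apply sum_le_sum
          intro m hmm
          rw [mem_range] at hmm
          have k1 := hm m (by omega)
          have k2 := Int.fract_nonneg ((dd g m p - t m) / M)
          rw [abs_mul, abs_of_nonneg (by positivity : 0 ≤ (M : ℝ) * Int.fract ((dd g m p - t m) / M))]
          apply mul_le_mul ((hc1 m (by omega)).trans (pow_le_pow_right₀ hS1 (by omega))) _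
            (by positivity) (by positivity)
          exact mul_le_mul_of_nonneg_left k1.le hM0.le
      _ = ((N : ℝ) + 1) * ((S : ℝ) ^ N * (M * w)) := by
          rw [sum_const, card_range, nsmul_eq_mul]
          push_cast
          ring
      _ ≤ _ := h1
  refine ⟨∑ m ∈ range (N + 1), c m * ⌊(dd g m p - t m) / M⌋, ?_⟩
  rw [hsum] at hc2
  set A := ∑ m ∈ range (N + 1), (c m : ℝ) * (M * Int.fract ((dd g m p - t m) / M)) with hA
  set K := ((∑ m ∈ range (N + 1), c m * ⌊(dd g m p - t m) / M⌋ : ℤ) : ℝ) with hK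
  have e1 : g (p + s) - (a + 1 / 2 + M * K) = (g (p + s) - (a + 1 / 2 + M * K + A)) + A := by ring
  rw [e1]
  refine (abs_add_le _ _).trans ?_
  linarith

theorem runs {r : ℕ} (hr : 1 ≤ r) (c u : Fin r → ℝ) (F : Fin r → ℕ → ℝ → ℝ)
    (hSV : ∀ j, SV (c j) (F j)) (hcn : ∀ j, ∀ n : ℕ, c j ≠ n)
    (hinc : ∀ i j, i ≠ j → ∀ n : ℤ, (c i + u i) - (c j + u j) ≠ n)
    (hv : ∀ j, 0 < c j + u j) (hvn : ∀ j, ∀ n : ℕ, c j + u j ≠ n)
    (d b : ℕ) (hd : 0 < d) (hb : b.Coprime d) (ε : ℝ) (hε : 0 < ε) (hε1 : ε ≤ 1 / 2) :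
    ∃ κ δ : ℝ, 0 < κ ∧ 0 < δ ∧ ∀ᶠ Z : ℝ in atTop, ∀ (α : Fin r → ℝ)
      (P : Fin r → Polynomial ℝ),
      (∀ j, Z ^ (u j - δ) ≤ |α j| ∧ |α j| ≤ Z ^ (u j + δ)) →
      (∀ j, ((P j).natDegree : ℝ) ≤ c j + u j) →
      (∀ j, ∀ n : ℤ, Z / 2 ≤ n → (n : ℝ) ≤ 2 * Z →
        Z ^ ε ≤ α j * F j 0 n + (P j).eval (n : ℝ)) →
      ∃ G : Finset ℕ, Z ^ (1 - ε) ≤ (G.card : ℝ) ∧ ∀ p ∈ G, p.Prime ∧ p ≡ b [MOD d] ∧
        Z < p ∧ (p : ℝ) ≤ (1 + ε) * Z ∧
        ∀ j, ∀ n : ℤ, |(n : ℝ) - p| ≤ Z ^ δ → ∀ q : ℕ, q.Prime →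
          κ * RK Z < |(q : ℝ) - (α j * F j 0 n + (P j).eval (n : ℝ))| := by
  classical
  have : Nonempty (Fin r) := ⟨⟨0, hr⟩⟩
  set N : Fin r → ℕ := fun j => ⌊c j + u j⌋₊ with hN
  have hN1 : ∀ j, (N j : ℝ) < c j + u j := fun j =>
    lt_of_le_of_ne (Nat.floor_le (hv j).le) (fun h => hvn j _ h.symm)
  have hN2 : ∀ j, c j + u j < N j + 1 := fun j => Nat.lt_floor_add_one _
  obtain ⟨g, hg0, hg⟩ : ∃ g : ℝ, 0 < g ∧ ∀ j, g ≤ N j + 1 - (c j + u j) := by
    obtain ⟨j0, hj0⟩ := Finite.exists_min (fun j => (N j : ℝ) + 1 - (c j + u j))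
    exact ⟨_, by linarith [hN2 j0], hj0⟩
  set NN : ℕ := ∑ j, N j with hNN
  have hNN1 : ∀ j, N j ≤ NN := fun j =>
    single_le_sum (f := N) (fun _ _ => Nat.zero_le _) (mem_univ j)
  have hit : ∀ (j : Fin r) (m : ℕ), ∃ s : ℝ, (s = 1 ∨ s = -1) ∧
      SV (c j - (m : ℕ)) (fun i t => s * DF (F j) m i t) := fun j m => sv_iter (hSV j) (hcn j) m
  choose es hes hesSV using hit
  have hes2 : ∀ j m, es j m * es j m = 1 := by
    intro j m
    rcases hes j m with h | h <;> rw [h] <;> norm_num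
  have hesa : ∀ j m, |es j m| = 1 := by
    intro j m
    rcases hes j m with h | h <;> simp [h]
  -- the index set
  obtain ⟨R, hR1, ⟨E⟩⟩ : ∃ R : ℕ, 1 ≤ R ∧ Nonempty ((Σ j : Fin r, Fin (N j + 1)) ≃ Fin R) := by
    refine ⟨Fintype.card (Σ j : Fin r, Fin (N j + 1)), ?_, ⟨Fintype.equivFin _⟩⟩
    rw [Nat.one_le_iff_ne_zero, ← Nat.pos_iff_ne_zero, Fintype.card_pos_iff]
    exact ⟨⟨⟨0, hr⟩, 0⟩⟩
  have hinj : Function.Injective
      (fun k : Fin R => (c (E.symm k).1 - (((E.symm k).2 : Fin _) : ℕ)) + u (E.symm k).1) := by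
    intro k l hkl
    simp only at hkl
    have h1 : (E.symm k).1 = (E.symm l).1 := by
      by_contra hne
      exact hinc _ _ hne ((((E.symm k).2 : Fin _) : ℕ) - (((E.symm l).2 : Fin _) : ℕ) : ℤ)
        (by push_cast; linarith)
    have h2 : (((E.symm k).2 : Fin _) : ℕ) = (((E.symm l).2 : Fin _) : ℕ) := by
      have hc' : c (E.symm k).1 = c (E.symm l).1 := by rw [h1]
      have hu' : u (E.symm k).1 = u (E.symm l).1 := by rw [h1]
      have : ((((E.symm k).2 : Fin _) : ℕ) : ℝ) = (((E.symm l).2 : Fin _) : ℕ) := by linarith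
      exact_mod_cast this
    apply E.symm.injective
    refine Sigma.ext h1 ?_
    exact (Fin.heq_ext_iff (by rw [h1])).mpr h2
  obtain ⟨ρ, δ₀, hρ0, hρ1, hδ₀, hexp⟩ := exp_primes' hR1
    (fun k => c (E.symm k).1 - (((E.symm k).2 : Fin _) : ℕ)) (fun k => u (E.symm k).1)
    (fun k i t => es (E.symm k).1 (E.symm k).2 * DF (F (E.symm k).1) (E.symm k).2 i t)
    (fun k => hesSV _ _) (fun k n h => hcn (E.symm k).1 (n + (E.symm k).2) (by
      push_cast
      linarith)) hinj NN ε hε hε1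
  -- parameters
  set η : ℝ := min (min (ρ / 8) δ₀) (min (ε / 8) (1 / 8)) with hη
  have hη0 : 0 < η := lt_min (lt_min (by positivity) hδ₀) (lt_min (by positivity) (by norm_num))
  have hηρ : η ≤ ρ / 8 := (min_le_left _ _).trans (min_le_left _ _)
  have hηδ : η ≤ δ₀ := (min_le_left _ _).trans (min_le_right _ _)
  have hηε : η ≤ ε / 8 := (min_le_right _ _).trans (min_le_left _ _)
  have hη8 : η ≤ 1 / 8 := (min_le_right _ _).trans (min_le_right _ _)
  set ι : ℝ := min (ρ / 8) (ε / 8) with hι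
  have hι0 : 0 < ι := lt_min (by positivity) (by positivity)
  have hι1 : ι ≤ ρ / 8 := min_le_left _ _
  have hι2 : ι ≤ ε / 8 := min_le_right _ _
  obtain ⟨β, hβ, hbox⟩ := boxes R hR1 η hη0 (by linarith)
  set θ : ℝ := min (min (β / 4) δ₀) 1 with hθ
  have hθ0 : 0 < θ := lt_min (lt_min (by positivity) hδ₀) one_pos
  have hθβ : θ ≤ β / 4 := (min_le_left _ _).trans (min_le_left _ _)
  have hθδ : θ ≤ δ₀ := (min_le_left _ _).trans (min_le_right _ _)
  obtain ⟨κ, hκ, hcov⟩ := cover θ hθ0 (min_le_right _ _)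
  have hNN0 : (0 : ℝ) ≤ NN := Nat.cast_nonneg _
  set δ : ℝ := min (min δ₀ (1 / 2)) (min (β / (8 * (NN + 1))) (g / (8 * (NN + 2)))) with hδdef
  have hδ : 0 < δ := lt_min (lt_min hδ₀ (by norm_num)) (lt_min (by positivity) (by positivity))
  have hδδ : δ ≤ δ₀ := (min_le_left _ _).trans (min_le_left _ _)
  have hδ2 : δ ≤ 1 / 2 := (min_le_left _ _).trans (min_le_right _ _)
  have hδβ : δ * (NN + 1) ≤ β / 8 := by
    have : δ ≤ β / (8 * (NN + 1)) := (min_le_right _ _).trans (min_le_left _ _)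
    rw [le_div_iff₀ (by positivity)] at this
    linarith
  have hδg : δ * (NN + 2) ≤ g / 8 := by
    have : δ ≤ g / (8 * (NN + 2)) := (min_le_right _ _).trans (min_le_right _ _)
    rw [le_div_iff₀ (by positivity)] at this
    linarith
  set xx : Fin r → ℝ := fun j => c j - ((N j + 1 : ℕ) : ℝ) + g / 4 with hxx
  set X : ℝ := ∑ j, |xx j| with hX
  have hXj : ∀ j, |xx j| ≤ X := fun j =>
    single_le_sum (f := fun j => |xx j|) (fun _ _ => abs_nonneg _) (mem_univ j)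
  have hpb : ∀ᶠ Z : ℝ in atTop, ∀ j, ∀ y, Z / 2 ≤ y →
      |DF (F j) (N j + 1) 0 y| ≤ y ^ (xx j) := by
    rw [Filter.eventually_all]
    intro j
    have h1 := power_bounds (hesSV j (N j + 1)) (g / 4) (by positivity)
    have h2 := (hesSV j (N j + 1)).pos
    obtain ⟨T, hT⟩ := eventually_atTop.mp (h1.and h2)
    filter_upwards [eventually_ge_atTop (2 * T)] with Z hZ y hy
    obtain ⟨⟨_, h3⟩, h4⟩ := hT y (by linarith)
    have h5 : |DF (F j) (N j + 1) 0 y| = es j (N j + 1) * DF (F j) (N j + 1) 0 y := by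
      rw [← abs_of_pos h4, abs_mul, hesa, one_mul]
    rw [h5]
    exact h3
  refine ⟨κ, δ, hκ, hδ, ?_⟩
  filter_upwards [hexp, hbox, hcov, hpb, card_primes d hd b hb ε ι hε (by linarith) hι0,
    eventually_ge_atTop (4 : ℝ), ev_pow (1 - ρ) (1 - ι - η) 2 (by linarith),
    ev_pow (1 - ε) (1 - ι - η) 1 (by linarith), RK_le, ev_pow δ 1 4 (by linarith),
    ev_pow (-(β / 2)) 0 (8 * (NN + 1)) (by linarith),
    ev_pow (-(g / 2)) 0 (4 * (2 ^ X * 2 ^ (NN + 1))) (by linarith),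
    ev_pow (ε / 2) ε (κ + 2) (by linarith),
    (isLittleO_log_rpow_atTop (show (0 : ℝ) < ε / 4 by positivity)).def
      (show (0 : ℝ) < 1 by norm_num), ev_pow (-(β / 2)) 0 (4 * ((NN + 1) * 2 ^ NN)) (by linarith)]
    with Z hex hbox hcov hpb hcard hZ4 hp1 hp3 hRK hZδ hq1 hq2 hq3 hlog hq4
  intro α P hα hPD hsize
  have hZ0 : 0 < Z := by linarith
  have hZ1 : 1 ≤ Z := by linarith
  rw [Real.rpow_zero] at hq1 hq2 hq4
  rw [Real.rpow_one] at hZδ
  obtain ⟨M, a, hM1, hMZ, hcov⟩ := hcov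
  have hM0 : (0 : ℝ) < M := by exact_mod_cast hM1
  have hlog0 : 0 ≤ Real.log Z := Real.log_nonneg hZ1
  rw [Real.norm_of_nonneg hlog0, Real.norm_of_nonneg (by positivity), one_mul] at hlog
  set Q : Finset ℕ := (Ioc ⌊Z⌋₊ ⌊(1 + ε) * Z⌋₊).filter (fun p => p.Prime ∧ p ≡ b [MOD d]) with hQ
  have hQpos : (0 : ℝ) < Q.card := lt_of_lt_of_le (by positivity) hcard
  have hQne : Q.Nonempty := by
    rw [← Finset.card_pos]
    exact_mod_cast hQpos
  have hQmem : ∀ p ∈ Q, p.Prime ∧ p ≡ b [MOD d] ∧ Z < p ∧ (p : ℝ) ≤ (1 + ε) * Z := by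
    intro p hp
    rw [hQ, Finset.mem_filter, Finset.mem_Ioc] at hp
    refine ⟨hp.2.1, hp.2.2, ?_, ?_⟩
    · exact (Nat.floor_lt hZ0.le).mp hp.1.1
    · have h1 : (p : ℝ) ≤ (⌊(1 + ε) * Z⌋₊ : ℕ) := by exact_mod_cast hp.1.2
      exact h1.trans (Nat.floor_le (by positivity))
  have hm01 : ⌊Z⌋₊ < ⌊(1 + ε) * Z⌋₊ := by
    obtain ⟨p, hp⟩ := hQne
    rw [hQ, Finset.mem_filter, Finset.mem_Ioc] at hp
    omega
  have hQZ : Z ^ (1 - ι - η) ≤ (Q.card : ℝ) * Z ^ (-η) := by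
    calc Z ^ (1 - ι - η) = Z ^ (1 - ι) * Z ^ (-η) := by
          rw [← Real.rpow_add hZ0]
          congr 1
      _ ≤ _ := by gcongr
  have hPN : ∀ j, (P j).natDegree ≤ N j := fun j => Nat.le_floor (hPD j)
  -- the polynomials of the differences
  have hpoly : ∀ (j : Fin r) (m : ℕ), ∃ Q : Polynomial ℝ,
      (∀ t, dd (fun t => (P j).eval t) m t = Q.eval t) ∧
      (Q = 0 ∨ Q.natDegree + m ≤ (P j).natDegree) := fun j m => dd_poly (P j) m
  choose PQ hPQ1 hPQ2 using hpoly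
  have hdd : ∀ (j : Fin r) (m : ℕ) (t : ℝ), dd (fun t => α j * F j 0 t + (P j).eval t) m t =
      α j * DF (F j) m 0 t + (PQ j m).eval t := by
    intro j m t
    rw [dd_lin, dd_DF, hPQ1]
  have hPQd : ∀ j m, (PQ j m).natDegree ≤ NN := by
    intro j m
    rcases hPQ2 j m with h | h
    · rw [h, Polynomial.natDegree_zero]; omega
    · have := hPN j
      have := hNN1 j
      omega
  set x : ℕ → Fin R → ℝ := fun p k =>
    dd (fun t => α (E.symm k).1 * F (E.symm k).1 0 t + (P (E.symm k).1).eval t)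
      (((E.symm k).2 : Fin _) : ℕ) p with hx
  set tt : Fin R → ℝ := fun k =>
    if (((E.symm k).2 : Fin _) : ℕ) = 0 then (a : ℝ) + 1 / 2 else 0 with htt
  have hδη : Z ^ η ≤ Z ^ δ₀ := Real.rpow_le_rpow_of_exponent_le hZ1 hηδ
  have hbig := hbox ℕ Q x tt M (by
    intro h hh hhZ
    obtain ⟨k₀, hk₀⟩ : ∃ k, h k ≠ 0 := by
      by_contra hcon
      push Not at hcon
      exact hh (funext hcon)
    have h1 := hex d b (fun k => es (E.symm k).1 (E.symm k).2 * α (E.symm k).1) h M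
      (∑ k, Polynomial.C ((h k : ℝ) / M) * PQ (E.symm k).1 (E.symm k).2) hd (by
        intro k
        rw [abs_mul, hesa, one_mul]
        obtain ⟨h2, h3⟩ := hα (E.symm k).1
        exact ⟨(Real.rpow_le_rpow_of_exponent_le hZ1 (by linarith)).trans h2,
          h3.trans (Real.rpow_le_rpow_of_exponent_le hZ1 (by linarith))⟩) hM1
      (hMZ.trans (Real.rpow_le_rpow_of_exponent_le hZ1 hθδ))
      ⟨k₀, hk₀, by
        have h2 := hN1 (E.symm k₀).1
        have h3 : ((((E.symm k₀).2 : Fin _) : ℕ) : ℝ) ≤ N (E.symm k₀).1 := by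
          exact_mod_cast Nat.lt_succ_iff.mp (E.symm k₀).2.2
        linarith⟩ (fun k => (hhZ k).trans hδη)
      (Polynomial.natDegree_sum_le_of_forall_le _ _ (fun k _ =>
          (Polynomial.natDegree_C_mul_le _ _).trans (hPQd _ _))) hm01
    refine le_trans (le_of_eq ?_) (h1.trans (hp1.trans hQZ))
    congr 1
    refine sum_congr rfl fun p _ => ?_
    congr 1
    rw [Polynomial.eval_finsetSum, ← sum_add_distrib]
    refine sum_congr rfl fun k _ => ?_
    rw [hx]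
    simp only
    rw [hdd, Polynomial.eval_mul, Polynomial.eval_C]
    have h2 := hes2 (E.symm k).1 (E.symm k).2
    calc (h k : ℝ) * ((α (E.symm k).1 * DF (F (E.symm k).1) (E.symm k).2 0 p +
        (PQ (E.symm k).1 (E.symm k).2).eval (p : ℝ)) / M) =
        (h k : ℝ) * (es (E.symm k).1 (E.symm k).2 * es (E.symm k).1 (E.symm k).2) *
        α (E.symm k).1 / M * DF (F (E.symm k).1) (E.symm k).2 0 p +
        (h k : ℝ) / M * (PQ (E.symm k).1 (E.symm k).2).eval (p : ℝ) := by rw [h2]; ring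
      _ = _ := by ring)
  refine ⟨Q.filter (fun i => ∀ k, Int.fract ((x i k - tt k) / M) < Z ^ (-β)), ?_, ?_⟩
  · linarith
  intro p hp
  rw [Finset.mem_filter] at hp
  obtain ⟨h1, h2, h3, h4⟩ := hQmem p hp.1
  refine ⟨h1, h2, h3, h4, ?_⟩
  intro j n hn q hq
  have hp15 : (p : ℝ) ≤ 3 / 2 * Z := by nlinarith
  -- the run
  set S : ℕ := ⌊Z ^ δ⌋₊ with hS
  have hZδ1 : 1 ≤ Z ^ δ := Real.one_le_rpow hZ1 hδ.le
  have hS1 : 1 ≤ S := Nat.le_floor (by simpa using hZδ1)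
  have hS2 : (S : ℝ) ≤ Z ^ δ := Nat.floor_le (by positivity)
  have hs : |n - (p : ℤ)| ≤ (S : ℤ) := by
    have h5 : |n - (p : ℤ)| = ((n - (p : ℤ)).natAbs : ℤ) := Int.abs_eq_natAbs _
    rw [h5]
    have h6 : (n - (p : ℤ)).natAbs ≤ S := by
      apply Nat.le_floor
      rw [Nat.cast_natAbs]
      push_cast
      exact hn
    exact_mod_cast h6
  have hall : ∀ y : (Σ j : Fin r, Fin (N j + 1)),
      Int.fract ((dd (fun t => α y.1 * F y.1 0 t + (P y.1).eval t) ((y.2 : Fin _) : ℕ) p -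
        (if ((y.2 : Fin _) : ℕ) = 0 then (a : ℝ) + 1 / 2 else 0)) / M) < Z ^ (-β) := by
    intro y
    have h5 := hp.2 (E y)
    simp only [hx, htt] at h5
    rw [Equiv.symm_apply_apply] at h5
    exact h5
  obtain ⟨K, hK⟩ := key (N j) (fun t => α j * F j 0 t + (P j).eval t) p S
    (Z ^ (u j + δ) * (2 ^ |xx j| * Z ^ (xx j))) (Z ^ (-β)) M a hM1 (by positivity)
    hS1 (by
      intro i hi
      have h5 : PQ j (N j + 1) = 0 := by
        rcases hPQ2 j (N j + 1) with h | h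
        · exact h
        · have := hPN j
          omega
      rw [hdd, h5, Polynomial.eval_zero, add_zero, abs_mul]
      have h6 : |(i : ℝ)| ≤ Z ^ δ := by
        refine le_trans ?_ hS2
        exact_mod_cast hi
      have h7 := abs_le.mp h6
      have h8 : Z / 2 ≤ (p : ℝ) + i := by linarith
      have h9 : (p : ℝ) + i ≤ 2 * Z := by linarith
      apply mul_le_mul (hα j).2 ((hpb j _ h8).trans (rpow_near hZ0 h8 h9 _)) (abs_nonneg _)
        (by positivity))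
    (by
      intro m hm
      exact hall ⟨j, ⟨m, by omega⟩⟩)
    (by
      calc ((N j : ℝ) + 1) * ((S : ℝ) ^ (N j) * (M * Z ^ (-β)))
          ≤ ((NN : ℝ) + 1) * ((Z ^ δ) ^ (NN : ℕ) * (Z ^ θ * Z ^ (-β))) := by
            have h5 : (N j : ℝ) ≤ NN := by exact_mod_cast hNN1 j
            have h6 : (S : ℝ) ^ (N j) ≤ (Z ^ δ) ^ (NN : ℕ) :=
              (pow_le_pow_left₀ (Nat.cast_nonneg _) hS2 _).trans
                (pow_le_pow_right₀ hZδ1 (hNN1 j))
            gcongr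
        _ = ((NN : ℝ) + 1) * Z ^ (δ * NN + (θ + -β)) := by
            rw [← Real.rpow_natCast (Z ^ δ), ← Real.rpow_mul hZ0.le, ← Real.rpow_add hZ0,
              ← Real.rpow_add hZ0]
        _ ≤ ((NN : ℝ) + 1) * Z ^ (-(β / 2)) := by
            apply mul_le_mul_of_nonneg_left _ (by positivity)
            apply Real.rpow_le_rpow_of_exponent_le hZ1
            nlinarith
        _ ≤ _ := by linarith)
    (by
      calc (S : ℝ) ^ (N j + 1) * (Z ^ (u j + δ) * (2 ^ |xx j| * Z ^ (xx j)))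
          ≤ (Z ^ δ) ^ (NN + 1) * (Z ^ (u j + δ) * (2 ^ X * Z ^ (xx j))) := by
            have h6 : (S : ℝ) ^ (N j + 1) ≤ (Z ^ δ) ^ (NN + 1) :=
              (pow_le_pow_left₀ (Nat.cast_nonneg _) hS2 _).trans
                (pow_le_pow_right₀ hZδ1 (by have := hNN1 j; omega))
            have h7 : (2 : ℝ) ^ |xx j| ≤ 2 ^ X :=
              Real.rpow_le_rpow_of_exponent_le (by norm_num) (hXj j)
            gcongr
        _ = 2 ^ X * (Z ^ (δ * ((NN + 1 : ℕ) : ℝ)) * (Z ^ (u j + δ) * Z ^ (xx j))) := by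
            rw [← Real.rpow_natCast (Z ^ δ), ← Real.rpow_mul hZ0.le]
            ring
        _ = 2 ^ X * Z ^ (δ * ((NN + 1 : ℕ) : ℝ) + ((u j + δ) + xx j)) := by
            rw [← Real.rpow_add hZ0, ← Real.rpow_add hZ0]
        _ ≤ 2 ^ X * Z ^ (-(g / 2)) := by
            apply mul_le_mul_of_nonneg_left _ (by positivity)
            apply Real.rpow_le_rpow_of_exponent_le hZ1
            have := hg j
            simp only [hxx]
            push_cast
            linarith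
        _ ≤ 1 / 4 := by
            have h5 : (1 : ℝ) ≤ 2 ^ (NN + 1) := one_le_pow₀ (by norm_num)
            have h6 : 0 < (2 : ℝ) ^ X * Z ^ (-(g / 2)) := by positivity
            nlinarith)
    (n - (p : ℤ)) hs
  have e1 : (p : ℝ) + ((n - (p : ℤ) : ℤ) : ℝ) = n := by push_cast; ring
  rw [e1] at hK
  by_contra hcon
  rw [not_lt] at hcon
  set v : ℝ := α j * F j 0 n + (P j).eval (n : ℝ) with hv'
  have hk := hcov ((q : ℤ) - a - M * K) (by
    push_cast
    have e2 : (q : ℝ) - a - M * K = ((q : ℝ) - v) + (v - (a + 1 / 2 + M * K)) + 1 / 2 := by ring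
    rw [e2]
    calc |((q : ℝ) - v) + (v - (a + 1 / 2 + M * K)) + 1 / 2| ≤
        |(q : ℝ) - v| + |v - (a + 1 / 2 + M * K)| + |(1 / 2 : ℝ)| := abs_add_three _ _ _
      _ ≤ κ * RK Z + 1 / 2 + 1 / 2 := by
        have : |(1 / 2 : ℝ)| = 1 / 2 := abs_of_pos (by norm_num)
        rw [this]
        linarith
      _ = _ := by ring)
  obtain ⟨p', hp', hp'l, hp'M, hp'k⟩ := hk
  have hdvd : (p' : ℤ) ∣ (q : ℤ) := by
    have e2 : (q : ℤ) = (a + ((q : ℤ) - a - M * K)) + M * K := by ring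
    rw [e2]
    exact dvd_add hp'k (Dvd.dvd.mul_right (by exact_mod_cast hp'M) _)
  have hpq : p' = q := by
    have : p' ∣ q := by exact_mod_cast hdvd
    exact (Nat.prime_dvd_prime_iff_eq hp' hq).mp this
  have hn' := abs_le.mp hn
  have hvZ := hsize j n (by linarith) (by linarith)
  rw [← hv'] at hvZ
  have hqv := abs_le.mp hcon
  have hql : (q : ℝ) ≤ Real.log Z := by rw [← hpq]; exact hp'l
  have hl2 : Real.log Z ^ 2 ≤ Z ^ (ε / 2) := by
    calc Real.log Z ^ 2 ≤ (Z ^ (ε / 4)) ^ 2 := pow_le_pow_left₀ hlog0 hlog 2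
      _ = Z ^ (ε / 2) := by
        rw [← Real.rpow_natCast (Z ^ (ε / 4)), ← Real.rpow_mul hZ0.le]
        congr 1
        push_cast
        ring
  have hl1 : Real.log Z ≤ Z ^ (ε / 2) :=
    hlog.trans (Real.rpow_le_rpow_of_exponent_le hZ1 (by linarith))
  have h0 : 0 < Z ^ (ε / 2) := by positivity
  have h5 : κ * RK Z ≤ κ * Z ^ (ε / 2) := mul_le_mul_of_nonneg_left (hRK.trans hl2) hκ.le
  nlinarith

end Pool.Agent.N542.PR
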